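import Pool.Agent.H93.HB.Targets
import Pool.Agent.H21.BT.All
import Pool.Agent.H37.G9.NRS
import Pool.Agent.H72.GS2.LVG

/-!
# Theorem (H0), MP_c59857_nt: row DGW, the mean square of the dual function of a family
-/

set_option autoImplicit false

namespace Pool.Agent.H21.HB

open Finset Pool.Agent.H18.MR Pool.Agent.H93.DE Pool.Agent.H6.N4D Pool.Agent.H93
  Pool.Agent.H93.ES Pool.Agent.H22.GS Pool.Agent.H6.G9 Pool.Agent.H56.HB Pool.Agent.H28.HB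
  Pool.Agent.H93.HB

theorem ms_nonneg (w : ℕ) (F : ℕ → ℂ) : 0 ≤ ms w F := by
  unfold ms
  positivity

theorem fe_norm (P : ℕ) (φ : ℕ → ℕ → ℝ) (u : ℕ → ℕ → ℂ) (hu : ∀ j q, ‖u j q‖ ≤ P) (q t : ℕ) :
    ‖fe P φ u q t‖ ≤ (P : ℝ) * P := by
  unfold fe
  refine (norm_sum_le _ _).trans ?_
  refine (sum_le_sum fun j _ => ?_ : ∑ j ∈ range P, ‖u j q * ee (φ j q * t)‖ ≤
    ∑ _j ∈ range P, (P : ℝ)).trans ?_
  · rw [norm_mul, norm_ee, mul_one]
    exact hu j q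
  · rw [sum_const, card_range, nsmul_eq_mul]

theorem ms_le (w P : ℕ) (φ : ℕ → ℕ → ℝ) (u : ℕ → ℕ → ℂ) (hu : ∀ j q, ‖u j q‖ ≤ P) (q : ℕ) :
    ms w (fe P φ u q) ≤ ((P : ℝ) * P) ^ 2 := by
  unfold ms
  rw [div_le_iff₀ (by positivity)]
  refine (sum_le_sum fun t _ => pow_le_pow_left₀ (norm_nonneg _) (fe_norm P φ u hu q t) 2).trans ?_
  rw [sum_const, card_range, nsmul_eq_mul]
  push_cast
  linarith

/-- a shift of the first point by a multiple of all primes of the level -/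
theorem dgw_shift (w r₀ : ℕ) : ∃ a : ℕ, 1 ≤ a ∧ ∀ q ∈ EB.QQ w, ∀ t, (q ∣ a + t ↔ q ∣ r₀ + t) := by
  refine ⟨r₀ + ∏ q ∈ EB.QQ w, q, ?_, fun q hq t => ?_⟩
  · have : 0 < ∏ q ∈ EB.QQ w, q := by
      refine prod_pos fun q hq => ?_
      unfold EB.QQ at hq
      exact (mem_filter.1 hq).2.pos
    omega
  · have h1 : q ∣ ∏ q ∈ EB.QQ w, q := dvd_prod_of_mem _ hq
    have h2 : r₀ + ∏ q ∈ EB.QQ w, q + t = (r₀ + t) + ∏ q ∈ EB.QQ w, q := by ring
    rw [h2]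
    exact (Nat.dvd_add_left h1)

theorem pf_DGW : T_DGW := by
  obtain ⟨C, hC0, hDIT⟩ := Pool.Agent.H21.BT.dit (3 / 2) (by norm_num)
  obtain ⟨m₂, hN⟩ := Pool.Agent.H37.G9.pf_NRS
  obtain ⟨m₃, hM⟩ := Pool.Agent.H72.GS2.mu_le
  refine ⟨12, by norm_num, fun P V => ?_⟩
  obtain ⟨n₁, hn₁⟩ := pow_unbounded_of_one_lt ((P : ℝ) ^ 4) (one_lt_two)
  obtain ⟨n₂, hn₂⟩ := pow_unbounded_of_one_lt
    (8 * (((P : ℝ) * P + 1) ^ 2 * (C * ((P : ℝ) ^ 4 * (P : ℝ) ^ 2)))) (one_lt_two)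
  refine ⟨m₂ + m₃ + 2000 * (n₁ + n₂ + 1), fun w r₀ φ u hw hF => ?_⟩
  rcases Nat.eq_zero_or_pos P with hP0 | hP1
  · subst hP0
    have h1 : ∀ t, dg w r₀ 0 φ u t = 0 := by
      intro t
      unfold dg fe
      simp
    have h2 : ms w (dg w r₀ 0 φ u) = 0 := by
      unfold ms
      simp [h1]
    rw [h2]
    have h3 : 0 ≤ qe w 0 φ u := by
      unfold qe
      exact sum_nonneg fun q _ => mul_nonneg (by positivity) (ms_nonneg _ _)
    positivity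
  have hPR : (1 : ℝ) ≤ P := by exact_mod_cast hP1
  have hu := hF.nf.cb
  obtain ⟨a, ha1, ha⟩ := dgw_shift w r₀
  set S : ℕ → ℝ := fun q => √(ms w (fe P φ u q)) with hS
  have hS0 : ∀ q, 0 ≤ S q := fun q => Real.sqrt_nonneg _
  have hSS : ∀ q, S q ^ 2 = ms w (fe P φ u q) := fun q => Real.sq_sqrt (ms_nonneg _ _)
  have hSP : ∀ q, S q ≤ (P : ℝ) * P := fun q => by
    have h1 := ms_le w P φ u hu q
    rw [← hSS q] at h1
    exact (pow_le_pow_iff_left₀ (hS0 q) (by positivity) (by norm_num)).1 h1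
  -- zero or large
  have hzl : ∀ q ∈ EB.QQ w, (∀ j < P, u j q = 0) ∨ (0 < S q ∧ 1 / S q ^ 2 ≤ 2 ^ (w / 1000)) := by
    intro q hq
    rcases hF.ct q hq with h | h
    · exact Or.inl h
    · right
      rw [← hSS q] at h
      have h1 : 0 < S q ^ 2 := lt_of_lt_of_le (by positivity) h
      refine ⟨by
        rcases (hS0 q).lt_or_eq with h2 | h2
        · exact h2
        · rw [← h2] at h1
          norm_num at h1, ?_⟩
      rw [div_le_iff₀ h1]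
      calc (1 : ℝ) = 2 ^ (w / 1000) * (1 / 2) ^ (w / 1000) := by
            rw [← mul_pow]
            norm_num
        _ ≤ 2 ^ (w / 1000) * S q ^ 2 := by gcongr
  set b : ℕ → ℕ → ℂ := fun r q => u r q * ee (-(φ r q * a)) / (S q : ℂ) with hb
  set T : Pool.Agent.H21.BT.TC := ⟨a, 2 ^ w, EB.QQ w, P, φ, b⟩ with hT
  have hNR : (0 : ℝ) < ((2 ^ w : ℕ) : ℝ) := by positivity
  -- the values
  have hTF : ∀ q x, T.F q (a + x) = fe P φ u q x / (S q : ℂ) := by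
    intro q x
    unfold Pool.Agent.H21.BT.TC.F fe
    rw [Finset.sum_div]
    refine sum_congr rfl fun r _ => ?_
    show u r q * ee (-(φ r q * a)) / (S q : ℂ) * ee (φ r q * ((a + x : ℕ) : ℝ)) =
      u r q * ee (φ r q * x) / (S q : ℂ)
    have h1 : ee (φ r q * ((a + x : ℕ) : ℝ)) = ee (φ r q * a) * ee (φ r q * x) := by
      rw [← ee_add]
      congr 1
      push_cast
      ring
    have h2 : ee (-(φ r q * a)) * ee (φ r q * a) = 1 := by
      rw [← ee_add, neg_add_cancel]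
      unfold ee
      simp
    rw [h1]
    linear_combination (u r q * ee (φ r q * x) / (S q : ℂ)) * h2
  have hfz : ∀ q, (∀ j < P, u j q = 0) → ∀ x, fe P φ u q x = 0 := by
    intro q h x
    unfold fe
    exact sum_eq_zero fun j hj => by rw [h j (mem_range.1 hj), zero_mul]
  have hn2 : ∀ q x, ‖T.F q (a + x)‖ ^ 2 = ‖fe P φ u q x‖ ^ 2 / S q ^ 2 := by
    intro q x
    rw [hTF, norm_div, Complex.norm_real, Real.norm_eq_abs, abs_of_nonneg (hS0 q), div_pow]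
  have hsum : ∀ q, ∑ x ∈ range (2 ^ w), ‖fe P φ u q x‖ ^ 2 = S q ^ 2 * ((2 ^ w : ℕ) : ℝ) := by
    intro q
    rw [hSS q]
    unfold ms
    push_cast
    rw [div_mul_cancel₀ _ (by positivity)]
  have hq2 : ∀ q ∈ EB.QQ w, q.Prime ∧ 2 ^ (w / 400) ≤ q ∧ q ≤ 2 ^ (w / 200) := by
    intro q hq
    unfold EB.QQ at hq
    rw [mem_filter, mem_Ioc] at hq
    exact ⟨hq.2, hq.1.1.le, hq.1.2⟩
  -- the mean over the window
  have hn1 : ∀ q ∈ EB.QQ w, ∑ x ∈ range (2 ^ w), ‖T.F q (a + x)‖ ^ 2 ≤ ((2 ^ w : ℕ) : ℝ) := by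
    intro q hq
    simp only [hn2]
    rw [← Finset.sum_div, hsum]
    rcases hzl q hq with h | h
    · have h1 : S q ^ 2 = 0 := by
        rw [hSS q]
        unfold ms
        simp [hfz q h]
      rw [h1]
      simp
    · have h1 : S q ^ 2 ≠ 0 := (pow_pos h.1 2).ne'
      rw [mul_div_assoc, mul_comm, div_mul_cancel₀ _ h1]
  -- the coefficients
  have hbn : ∀ r, ∀ q ∈ EB.QQ w, ‖b r q‖ ^ 2 ≤ (P : ℝ) ^ 2 * 2 ^ (w / 1000) := by
    intro r q hq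
    have h0 : ‖b r q‖ ^ 2 = ‖u r q‖ ^ 2 * (1 / S q ^ 2) := by
      show ‖u r q * ee (-(φ r q * a)) / (S q : ℂ)‖ ^ 2 = _
      rw [norm_div, norm_mul, norm_ee, mul_one, Complex.norm_real, Real.norm_eq_abs,
        abs_of_nonneg (hS0 q), div_pow]
      ring
    rw [h0]
    have h3 : ‖u r q‖ ^ 2 ≤ (P : ℝ) ^ 2 := pow_le_pow_left₀ (norm_nonneg _) (hu r q) 2
    rcases hzl q hq with h | h
    · by_cases hS1 : S q = 0
      · rw [hS1]
        simp only [ne_eq, OfNat.ofNat_ne_zero, not_false_eq_true, zero_pow, div_zero, mul_zero]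
        positivity
      · exfalso
        apply hS1
        have h1 : S q ^ 2 = 0 := by
          rw [hSS q]
          unfold ms
          simp [hfz q h]
        exact pow_eq_zero_iff (two_ne_zero) |>.1 h1
    · exact mul_le_mul h3 h.2 (by positivity) (by positivity)
  -- the multiples of the prime
  have hnq : ∀ q ∈ EB.QQ w, ∑ x ∈ range (2 ^ w),
      (if q ∣ a + x then (q : ℝ) else 0) * ‖T.F q (a + x)‖ ^ 2 ≤ 2 * ((2 ^ w : ℕ) : ℝ) := by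
    intro q hq
    set F : Pool.Agent.H93.GS.Ex := ⟨P, fun r => b r q, fun r => φ r q⟩ with hFd
    have hFf : ∀ x, F.f x = T.F q x := fun x => rfl
    have h1 := hN w (2 ^ w) (a - 1) q F (by omega) (by omega) hq
      (fun i hi j hj h2 h3 => hF.cl q hq i hi j hj
        (by
          intro h4
          apply h2
          show u i q * ee (-(φ i q * a)) / (S q : ℂ) = 0
          rw [h4, zero_mul, zero_div])
        (by
          intro h4
          apply h3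
          show u j q * ee (-(φ j q * a)) / (S q : ℂ) = 0
          rw [h4, zero_mul, zero_div]))
    have hIoc : ∀ G : ℕ → ℝ, ∑ m ∈ Ioc (a - 1) (a - 1 + 2 ^ w), G m =
        ∑ x ∈ range (2 ^ w), G (a + x) := by
      intro G
      have e1 : Ioc (a - 1) (a - 1 + 2 ^ w) = Ico a (a + 2 ^ w) := by
        ext m
        rw [mem_Ioc, mem_Ico]
        omega
      rw [e1, sum_Ico_eq_sum_range]
      simp
    have hnm : F.nm ^ 2 ≤ (P : ℝ) ^ 4 * 2 ^ (w / 1000) := by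
      have e1 : F.nm ^ 2 ≤ (P : ℝ) * ∑ r ∈ range P, ‖b r q‖ ^ 2 := by
        show (∑ r ∈ range P, ‖b r q‖) ^ 2 ≤ _
        have := sq_sum_le_card_mul_sum_sq (s := range P) (f := fun r => ‖b r q‖)
        rwa [card_range] at this
      have e2 : ∑ r ∈ range P, ‖b r q‖ ^ 2 ≤ (P : ℝ) * ((P : ℝ) ^ 2 * 2 ^ (w / 1000)) := by
        refine (sum_le_sum fun r _ => hbn r q hq).trans ?_
        rw [sum_const, card_range, nsmul_eq_mul]
      calc F.nm ^ 2 ≤ (P : ℝ) * ((P : ℝ) * ((P : ℝ) ^ 2 * 2 ^ (w / 1000))) :=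
            e1.trans (by gcongr)
        _ = _ := by ring
    have hsm : F.nm ^ 2 * (1 / 2 : ℝ) ^ (w / 300) ≤ 1 := by
      have e1 : (P : ℝ) ^ 4 * 2 ^ (w / 1000) ≤ 2 ^ (w / 300) := by
        calc (P : ℝ) ^ 4 * 2 ^ (w / 1000) ≤ 2 ^ n₁ * 2 ^ (w / 1000) := by gcongr
          _ = 2 ^ (n₁ + w / 1000) := by rw [pow_add]
          _ ≤ 2 ^ (w / 300) := pow_le_pow_right₀ (by norm_num) (by omega)
      calc F.nm ^ 2 * (1 / 2 : ℝ) ^ (w / 300) ≤ 2 ^ (w / 300) * (1 / 2 : ℝ) ^ (w / 300) := by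
            gcongr
            exact hnm.trans e1
        _ = 1 := by
            rw [← mul_pow]
            norm_num
    have h2 := (abs_le.1 h1).2.trans hsm
    unfold Pool.Agent.H93.GS.nrm Pool.Agent.H93.GS.ar at h2
    rw [sum_filter, sum_filter, hIoc, hIoc] at h2
    simp only [one_dvd, if_true, Nat.cast_one, mul_one, hFf] at h2
    have h3 : (∑ x ∈ range (2 ^ w), ‖T.F q (a + x)‖ ^ 2) / ((2 ^ w : ℕ) : ℝ) ≤ 1 := by
      rw [div_le_one hNR]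
      exact hn1 q hq
    have h4 : (∑ x ∈ range (2 ^ w), if q ∣ a + x then ‖T.F q (a + x)‖ ^ 2 else 0) * q /
        ((2 ^ w : ℕ) : ℝ) ≤ 2 := by linarith
    rw [div_le_iff₀ hNR, sum_mul] at h4
    refine le_trans (le_of_eq (sum_congr rfl fun x _ => ?_)) h4
    split_ifs <;> ring
  -- the window satisfies the conditions
  set A : ℝ := P * 2 ^ (w / 2000 + 1) with hA
  have hA2 : A ^ 2 ≤ 4 * ((P : ℝ) ^ 2 * 2 ^ (w / 1000)) := by
    have e1 : (2 : ℝ) ^ (2 * (w / 2000)) ≤ 2 ^ (w / 1000) :=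
      pow_le_pow_right₀ (by norm_num) (by omega)
    have e2 : A ^ 2 = 4 * ((P : ℝ) ^ 2 * 2 ^ (2 * (w / 2000))) := by
      rw [hA, pow_succ, pow_mul']
      ring
    rw [e2]
    gcongr
  have hok : T.Ok (3 / 2) A (2 ^ (w / 400)) := by
    refine ⟨fun q hq => (hq2 q hq).1, fun q hq => (hq2 q hq).2.1, fun q hq => ?_, hM w (by omega),
      Nat.one_le_two_pow, Nat.one_le_two_pow, ?_, fun r _ q hq => ?_, hn1, hnq⟩
    · calc q ^ 200 ≤ (2 ^ (w / 200)) ^ 200 := Nat.pow_le_pow_left (hq2 q hq).2.2 _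
        _ = 2 ^ (w / 200 * 200) := by rw [pow_mul]
        _ ≤ 2 ^ w := Nat.pow_le_pow_right (by norm_num) (Nat.div_mul_le_self _ _)
    · rw [hA]
      have : (1 : ℝ) ≤ 2 ^ (w / 2000 + 1) := one_le_pow₀ (by norm_num)
      nlinarith
    · have h1 : ‖b r q‖ ^ 2 ≤ A ^ 2 := by
        refine (hbn r q hq).trans ?_
        have e1 : (2 : ℝ) ^ (w / 1000) ≤ 2 ^ (2 * (w / 2000 + 1)) :=
          pow_le_pow_right₀ (by norm_num) (by omega)
        rw [hA, mul_pow, ← pow_mul, mul_comm (w / 2000 + 1) 2]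
        gcongr
      exact (pow_le_pow_iff_left₀ (norm_nonneg _) (by positivity) (by norm_num)).1 h1
  -- the dual function
  set L : ℝ := (P : ℝ) * P + 1 with hL
  have hL0 : 0 < L := by positivity
  set z : ℕ → ℂ := fun q => ((S q / L : ℝ) : ℂ) with hz
  have hz3 : ∀ q, ‖z q‖ ≤ 3 := by
    intro q
    show ‖((S q / L : ℝ) : ℂ)‖ ≤ 3
    rw [Complex.norm_real, Real.norm_eq_abs, abs_of_nonneg (div_nonneg (hS0 q) hL0.le),
      div_le_iff₀ hL0]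
    have := hSP q
    linarith
  have hom : ∀ x, T.om z (a + x) = dg w r₀ P φ u x / (L : ℂ) := by
    intro x
    unfold Pool.Agent.H21.BT.TC.om dg
    rw [Finset.sum_div]
    refine sum_congr rfl fun q hq => ?_
    unfold Pool.Agent.H21.BT.TC.u
    rw [hTF]
    have e1 : Pool.Agent.H21.BS.DD q (a + x) = ((DR q (r₀ + x) : ℝ) : ℂ) := by
      unfold Pool.Agent.H21.BS.DD DR
      by_cases hd : q ∣ r₀ + x
      · rw [if_pos ((ha q hq x).2 hd), if_pos hd]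
        push_cast
        ring
      · rw [if_neg (fun h => hd ((ha q hq x).1 h)), if_neg hd]
        push_cast
        ring
    rw [e1]
    have e2 : z q * (fe P φ u q x / (S q : ℂ)) = fe P φ u q x / (L : ℂ) := by
      show ((S q / L : ℝ) : ℂ) * (fe P φ u q x / (S q : ℂ)) = _
      rcases hzl q hq with h | h
      · rw [hfz q h, zero_div, zero_div, mul_zero]
      · have h5 : (S q : ℂ) ≠ 0 := by exact_mod_cast h.1.ne'
        push_cast
        field_simp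
    calc 1 / (q : ℂ) * z q * (((DR q (r₀ + x) : ℝ) : ℂ) * (fe P φ u q x / (S q : ℂ)))
        = 1 / (q : ℂ) * ((DR q (r₀ + x) : ℝ) : ℂ) * (z q * (fe P φ u q x / (S q : ℂ))) := by ring
      _ = _ := by rw [e2]; ring
  have hD := hDIT A (2 ^ (w / 400)) T z hok hP1 hz3
  have hD1 : ∑ x ∈ range (2 ^ w), ‖T.om z (a + x)‖ ^ 2 =
      (∑ x ∈ range (2 ^ w), ‖dg w r₀ P φ u x‖ ^ 2) / L ^ 2 := by
    rw [Finset.sum_div]
    refine sum_congr rfl fun x _ => ?_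
    rw [hom, norm_div, Complex.norm_real, Real.norm_eq_abs, abs_of_pos hL0, div_pow]
  have hD2 : ∑ q ∈ EB.QQ w, 1 / (q : ℝ) * ‖z q‖ ^ 2 = qe w P φ u / L ^ 2 := by
    unfold qe
    rw [Finset.sum_div]
    refine sum_congr rfl fun q _ => ?_
    show 1 / (q : ℝ) * ‖((S q / L : ℝ) : ℂ)‖ ^ 2 = _
    rw [Complex.norm_real, Real.norm_eq_abs, abs_of_nonneg (div_nonneg (hS0 q) hL0.le), div_pow,
      hSS q]
    ring
  have hD' : ∑ x ∈ range (2 ^ w), ‖T.om z (a + x)‖ ^ 2 ≤ ((2 ^ w : ℕ) : ℝ) * ((3 + 6 * (3 / 2)) *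
      (∑ q ∈ EB.QQ w, 1 / (q : ℝ) * ‖z q‖ ^ 2) + C * ((P : ℝ) ^ 4 * A ^ 2) *
      (1 / ((2 ^ (w / 400) : ℕ) : ℝ) + (((2 ^ w : ℕ) : ℝ)) ^ (-(2 / 5) : ℝ))) := hD
  rw [hD1, hD2, div_le_iff₀ (by positivity)] at hD'
  have hms : ms w (dg w r₀ P φ u) = (∑ x ∈ range (2 ^ w), ‖dg w r₀ P φ u x‖ ^ 2) /
      ((2 ^ w : ℕ) : ℝ) := by
    unfold ms
    push_cast
    rfl
  rw [hms, div_le_iff₀ hNR]
  refine hD'.trans ?_
  -- the error
  have hE1 : 1 / ((2 ^ (w / 400) : ℕ) : ℝ) + (((2 ^ w : ℕ) : ℝ)) ^ (-(2 / 5) : ℝ) ≤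
      2 * (1 / 2) ^ (w / 400) := by
    have e1 : 1 / ((2 ^ (w / 400) : ℕ) : ℝ) = (1 / 2) ^ (w / 400) := by
      push_cast
      rw [one_div_pow]
    have e2 : (((2 ^ w : ℕ) : ℝ)) ^ (-(2 / 5) : ℝ) ≤ (1 / 2) ^ (w / 400) := by
      push_cast
      rw [← Real.rpow_natCast, ← Real.rpow_mul (by norm_num : (0 : ℝ) ≤ 2)]
      have e3 : ((1 : ℝ) / 2) ^ (w / 400) = (2 : ℝ) ^ (-((w / 400 : ℕ) : ℝ)) := by
        rw [Real.rpow_neg (by norm_num), Real.rpow_natCast, one_div_pow, one_div]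
      rw [e3]
      apply Real.rpow_le_rpow_of_exponent_le (by norm_num)
      have e4 : ((w / 400 : ℕ) : ℝ) ≤ (w : ℝ) / 400 := Nat.cast_div_le
      have e5 : (0 : ℝ) ≤ w := Nat.cast_nonneg _
      linarith
    linarith
  have hE2 : L ^ 2 * (C * ((P : ℝ) ^ 4 * A ^ 2) * (2 * (1 / 2) ^ (w / 400))) ≤
      (1 / 2) ^ (w / 2000) := by
    have e1 : L ^ 2 * (C * ((P : ℝ) ^ 4 * A ^ 2) * (2 * (1 / 2) ^ (w / 400))) ≤
        L ^ 2 * (C * ((P : ℝ) ^ 4 * (4 * ((P : ℝ) ^ 2 * 2 ^ (w / 1000)))) *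
          (2 * (1 / 2) ^ (w / 400))) := by gcongr
    refine e1.trans ?_
    have e2 : L ^ 2 * (C * ((P : ℝ) ^ 4 * (4 * ((P : ℝ) ^ 2 * 2 ^ (w / 1000)))) *
        (2 * (1 / 2) ^ (w / 400))) = (8 * (L ^ 2 * (C * ((P : ℝ) ^ 4 * (P : ℝ) ^ 2)))) *
          (2 ^ (w / 1000) * (1 / 2) ^ (w / 400)) := by ring
    rw [e2]
    have e3 : 8 * (L ^ 2 * (C * ((P : ℝ) ^ 4 * (P : ℝ) ^ 2))) ≤ 2 ^ (w / 2000) :=
      hn₂.le.trans (pow_le_pow_right₀ (by norm_num) (by omega))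
    have e4 : (2 : ℝ) ^ (w / 2000) * 2 ^ (w / 1000) * 2 ^ (w / 2000) ≤ 2 ^ (w / 400) := by
      rw [← pow_add, ← pow_add]
      exact pow_le_pow_right₀ (by norm_num) (by omega)
    have e5 : (2 : ℝ) ^ (w / 2000) * (1 / 2) ^ (w / 2000) = 1 := by
      rw [← mul_pow]
      norm_num
    have e6 : (2 : ℝ) ^ (w / 400) * (1 / 2) ^ (w / 400) = 1 := by
      rw [← mul_pow]
      norm_num
    calc 8 * (L ^ 2 * (C * ((P : ℝ) ^ 4 * (P : ℝ) ^ 2))) * (2 ^ (w / 1000) * (1 / 2) ^ (w / 400))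
        ≤ 2 ^ (w / 2000) * (2 ^ (w / 1000) * (1 / 2) ^ (w / 400)) := by gcongr
      _ = (2 ^ (w / 2000) * 2 ^ (w / 1000) * (2 ^ (w / 2000) * (1 / 2) ^ (w / 2000))) *
            (1 / 2) ^ (w / 400) := by rw [e5]; ring
      _ = (2 ^ (w / 2000) * 2 ^ (w / 1000) * 2 ^ (w / 2000)) * (1 / 2) ^ (w / 400) *
            (1 / 2) ^ (w / 2000) := by ring
      _ ≤ 2 ^ (w / 400) * (1 / 2) ^ (w / 400) * (1 / 2) ^ (w / 2000) := by gcongr
      _ = (1 / 2) ^ (w / 2000) := by rw [e6, one_mul]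
  have hL2 : (qe w P φ u / L ^ 2) * L ^ 2 = qe w P φ u := div_mul_cancel₀ _ (by positivity)
  have hE3 : L ^ 2 * (C * ((P : ℝ) ^ 4 * A ^ 2) *
      (1 / ((2 ^ (w / 400) : ℕ) : ℝ) + (((2 ^ w : ℕ) : ℝ)) ^ (-(2 / 5) : ℝ))) ≤
      (1 / 2) ^ (w / 2000) := by
    refine le_trans ?_ hE2
    gcongr
  calc ((2 ^ w : ℕ) : ℝ) * ((3 + 6 * (3 / 2)) * (qe w P φ u / L ^ 2) + C * ((P : ℝ) ^ 4 * A ^ 2) *
        (1 / ((2 ^ (w / 400) : ℕ) : ℝ) + (((2 ^ w : ℕ) : ℝ)) ^ (-(2 / 5) : ℝ))) * L ^ 2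
      = ((2 ^ w : ℕ) : ℝ) * (12 * (qe w P φ u / L ^ 2 * L ^ 2) +
        L ^ 2 * (C * ((P : ℝ) ^ 4 * A ^ 2) *
        (1 / ((2 ^ (w / 400) : ℕ) : ℝ) + (((2 ^ w : ℕ) : ℝ)) ^ (-(2 / 5) : ℝ)))) := by ring
    _ ≤ ((2 ^ w : ℕ) : ℝ) * (12 * qe w P φ u + (1 / 2) ^ (w / 2000)) := by
        rw [hL2]
        gcongr
    _ = (12 * qe w P φ u + (1 / 2) ^ (w / 2000)) * ((2 ^ w : ℕ) : ℝ) := by ring

end Pool.Agent.H21.HB
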